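import Pool.Agent.V11328.MX.Ex

/-!
Every word is, up to the reflection at both ends, a product of blocks `A^n R` with `n ≠ 0`, and
the norm of such a product grows by a definite factor with every block.
-/

namespace V11328.MX

open Matrix Finset

/-- the three letters -/
noncomputable def s : Fin 3 → G := ![A, A⁻¹, R]

theorem s0 : s 0 = A := rfl
theorem s1 : s 1 = A⁻¹ := rfl
theorem s2 : s 2 = R := rfl

/-- inversion of letters -/
def e : Fin 3 ≃ Fin 3 := Equiv.swap 0 1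

theorem he (i : Fin 3) : s (e i) = (s i)⁻¹ := by
  fin_cases i
  · show s (e 0) = (s 0)⁻¹
    rw [show e 0 = 1 by decide, s0, s1]
  · show s (e 1) = (s 1)⁻¹
    rw [show e 1 = 0 by decide, s0, s1, inv_inv]
  · show s (e 2) = (s 2)⁻¹
    rw [show e 2 = 2 by decide, s2, R_inv]

/-- products of blocks -/
noncomputable def W : List ℤ → G
  | [] => 1
  | n :: l => A ^ n * (R * W l)

/-- the reflection or the identity -/
noncomputable def rho (b : Bool) : G := if b then R else 1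

theorem rho_not (b : Bool) : rho (!b) = R * rho b := by
  cases b <;> simp [rho, R_mul_R]

def NZ (l : List ℤ) : Prop := ∀ n ∈ l, n ≠ 0

def Rep (γ : G) : Prop := ∃ (b c : Bool) (l : List ℤ), NZ l ∧ γ = rho b * W l * rho c

theorem rep_A_zpow (m : ℤ) (hm : m ≠ 0) (γ : G) (h : Rep γ) :
    Rep (A ^ m * γ) := by
  obtain ⟨b, c, l, hl, rfl⟩ := h
  cases b with
  | true =>
    refine ⟨false, c, m :: l, ?_, ?_⟩
    · intro n hn
      rcases List.mem_cons.1 hn with h | h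
      · rw [h]; exact hm
      · exact hl n h
    · simp [rho, W, mul_assoc]
  | false =>
    cases l with
    | nil =>
      refine ⟨false, !c, [m], ?_, ?_⟩
      · intro n hn
        rw [List.mem_singleton] at hn
        rw [hn]; exact hm
      · rw [rho_not]
        simp only [rho, W, mul_one, one_mul, Bool.false_eq_true, if_false]
        rw [mul_assoc, ← mul_assoc R R, R_mul_R, one_mul]
    | cons n l =>
      have hl' : NZ l := fun x hx => hl x (List.mem_cons_of_mem _ hx)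
      by_cases h0 : m + n = 0
      · refine ⟨true, c, l, hl', ?_⟩
        simp only [rho, W, one_mul, Bool.false_eq_true, if_false, if_true]
        rw [← mul_assoc, ← mul_assoc, ← _root_.zpow_add, h0, _root_.zpow_zero, one_mul]
      · refine ⟨false, c, (m + n) :: l, ?_, ?_⟩
        · intro x hx
          rcases List.mem_cons.1 hx with h | h
          · rw [h]; exact h0
          · exact hl' x h
        · simp only [rho, W, one_mul, Bool.false_eq_true, if_false]
          rw [_root_.zpow_add]; simp only [mul_assoc]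

theorem rep_R (γ : G) (h : Rep γ) : Rep (R * γ) := by
  obtain ⟨b, c, l, hl, rfl⟩ := h
  refine ⟨!b, c, l, hl, ?_⟩
  rw [rho_not]; simp only [mul_assoc]

theorem rep_s (i : Fin 3) (γ : G) (h : Rep γ) : Rep (s i * γ) := by
  fin_cases i
  · have := rep_A_zpow 1 (by norm_num) γ h
    rwa [zpow_one] at this
  · have := rep_A_zpow (-1) (by norm_num) γ h
    rwa [_root_.zpow_neg_one] at this
  · exact rep_R γ h

open Classical in
theorem rep_reach (n : ℕ) : ∀ γ ∈ reach s n, Rep γ := by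
  induction n with
  | zero =>
    intro γ hγ
    simp only [reach, mem_singleton] at hγ
    exact ⟨false, false, [], by intro n hn; simp at hn, by simp [rho, W, hγ]⟩
  | succ n ih =>
    intro γ hγ
    simp only [reach, mem_biUnion, mem_univ, true_and, mem_image] at hγ
    obtain ⟨i, x, hx, rfl⟩ := hγ
    exact rep_s i x (ih x hx)

theorem A_zpow_val (n : ℤ) :
    ((A ^ n : G) : Matrix (Fin 2) (Fin 2) ℝ) = !![(1/2 : ℝ) ^ n, 0; 0, (1/256 : ℝ) ^ n] := by
  induction n using Int.induction_on with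
  | zero => ext i j; fin_cases i <;> fin_cases j <;> simp
  | succ n ih =>
    rw [_root_.zpow_add_one, Units.val_mul, ih, A_val, zpow_add_one₀ (by norm_num), zpow_add_one₀ (by norm_num)]
    ext i j; fin_cases i <;> fin_cases j <;> simp [Matrix.mul_apply, Fin.sum_univ_two]
  | pred n ih =>
    rw [_root_.zpow_sub_one, Units.val_mul, ih, Ai_val, zpow_sub_one₀ (by norm_num), zpow_sub_one₀ (by norm_num)]
    ext i j; fin_cases i <;> fin_cases j <;> simp [Matrix.mul_apply, Fin.sum_univ_two]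

/-- first column of `W l` -/
noncomputable def X (l : List ℤ) : ℝ := (W l : G) 0 0
noncomputable def Y (l : List ℤ) : ℝ := (W l : G) 1 0

theorem X_nil : X [] = 1 := by simp [X, W]
theorem Y_nil : Y [] = 0 := by simp [Y, W]

theorem X_cons (n : ℤ) (l : List ℤ) :
    X (n :: l) = (1/2 : ℝ) ^ n * ((3 * X l + 4 * Y l) / 5) := by
  unfold X Y
  have : (W (n :: l)).val
      = !![(1/2 : ℝ) ^ n, 0; 0, (1/256 : ℝ) ^ n] * (!![3/5, 4/5; 4/5, -3/5] * (W l).val) := by
    show (A ^ n * (R * W l)).val = _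
    rw [Units.val_mul, Units.val_mul, A_zpow_val, R_val]
  rw [this]
  simp only [Matrix.mul_apply, Fin.sum_univ_two, of_apply, cons_val', cons_val_zero, cons_val_one,
    cons_val_fin_one]
  ring

theorem Y_cons (n : ℤ) (l : List ℤ) :
    Y (n :: l) = (1/256 : ℝ) ^ n * ((4 * X l - 3 * Y l) / 5) := by
  unfold X Y
  have : (W (n :: l)).val
      = !![(1/2 : ℝ) ^ n, 0; 0, (1/256 : ℝ) ^ n] * (!![3/5, 4/5; 4/5, -3/5] * (W l).val) := by
    show (A ^ n * (R * W l)).val = _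
    rw [Units.val_mul, Units.val_mul, A_zpow_val, R_val]
  rw [this]
  simp only [Matrix.mul_apply, Fin.sum_univ_two, of_apply, cons_val', cons_val_zero, cons_val_one,
    cons_val_fin_one]
  ring

/-- growth factor of a block -/
noncomputable def gr (n : ℤ) : ℝ := (2/5) * max ((1/2 : ℝ) ^ n) ((1/256 : ℝ) ^ n)

theorem gr_pos (n : ℤ) : 0 < gr n := by
  unfold gr
  have : 0 < (1/2 : ℝ) ^ n := zpow_pos (by norm_num) n
  have := lt_max_of_lt_left (b := (1/2 : ℝ) ^ n) (c := (1/256 : ℝ) ^ n) this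
  positivity

theorem ratio_pos (n : ℤ) (h : 1 ≤ n) : (10 : ℝ) * (1/256 : ℝ) ^ n ≤ (1/2 : ℝ) ^ n := by
  have h1 : (1/256 : ℝ) ^ n = (1/128 : ℝ) ^ n * (1/2 : ℝ) ^ n := by
    rw [← mul_zpow]; norm_num
  have h2 : (1/128 : ℝ) ^ n ≤ 1/128 := by
    have := zpow_le_zpow_right_of_le_one₀ (a := (1/128 : ℝ)) (by norm_num) (by norm_num) h
    simpa using this
  have h3 : 0 < (1/2 : ℝ) ^ n := zpow_pos (by norm_num) n
  rw [h1]
  nlinarith

theorem ratio_neg (n : ℤ) (h : n ≤ -1) : (10 : ℝ) * (1/2 : ℝ) ^ n ≤ (1/256 : ℝ) ^ n := by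
  have h1 : (1/256 : ℝ) ^ n = (1/128 : ℝ) ^ n * (1/2 : ℝ) ^ n := by
    rw [← mul_zpow]; norm_num
  have h2 : (128 : ℝ) ≤ (1/128 : ℝ) ^ n := by
    have := zpow_le_zpow_right_of_le_one₀ (a := (1/128 : ℝ)) (by norm_num) (by norm_num) h
    simpa using this
  have h3 : 0 < (1/2 : ℝ) ^ n := zpow_pos (by norm_num) n
  rw [h1]
  nlinarith

/-- the vector `(x,y)` is close to one of the axes and has size at least `b` -/
def Near (b x y : ℝ) : Prop :=
  (|y| ≤ |x| / 4 ∧ b ≤ |x|) ∨ (|x| ≤ |y| / 4 ∧ b ≤ |y|)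

theorem near_step (n : ℤ) (hn : n ≠ 0) (b x y : ℝ) (hb : 0 ≤ b) (h : Near b x y) :
    Near (gr n * b) ((1/2 : ℝ) ^ n * ((3 * x + 4 * y) / 5)) ((1/256 : ℝ) ^ n * ((4 * x - 3 * y) / 5)) := by
  obtain ⟨M, hM, l1, l2, u1, u2⟩ : ∃ M : ℝ, b ≤ M ∧ 2/5 * M ≤ |(3 * x + 4 * y) / 5| ∧
      2/5 * M ≤ |(4 * x - 3 * y) / 5| ∧ |(3 * x + 4 * y) / 5| ≤ M ∧ |(4 * x - 3 * y) / 5| ≤ M := by
    rcases h with ⟨h1, h2⟩ | ⟨h1, h2⟩
    · refine ⟨|x|, h2, ?_, ?_, ?_, ?_⟩
      all_goals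
        rcases abs_cases x with ⟨hx, _⟩ | ⟨hx, _⟩ <;> rcases abs_cases y with ⟨hy, _⟩ | ⟨hy, _⟩ <;>
        first
        | (rcases abs_cases ((3 * x + 4 * y) / 5) with ⟨hz, _⟩ | ⟨hz, _⟩ <;> linarith)
        | (rcases abs_cases ((4 * x - 3 * y) / 5) with ⟨hz, _⟩ | ⟨hz, _⟩ <;> linarith)
    · refine ⟨|y|, h2, ?_, ?_, ?_, ?_⟩
      all_goals
        rcases abs_cases x with ⟨hx, _⟩ | ⟨hx, _⟩ <;> rcases abs_cases y with ⟨hy, _⟩ | ⟨hy, _⟩ <;>
        first
        | (rcases abs_cases ((3 * x + 4 * y) / 5) with ⟨hz, _⟩ | ⟨hz, _⟩ <;> linarith)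
        | (rcases abs_cases ((4 * x - 3 * y) / 5) with ⟨hz, _⟩ | ⟨hz, _⟩ <;> linarith)
  have p1 : 0 < (1/2 : ℝ) ^ n := zpow_pos (by norm_num) n
  have p2 : 0 < (1/256 : ℝ) ^ n := zpow_pos (by norm_num) n
  have hM0 : 0 ≤ M := hb.trans hM
  have a1 : |(1/2 : ℝ) ^ n * ((3 * x + 4 * y) / 5)| = (1/2 : ℝ) ^ n * |(3 * x + 4 * y) / 5| := by
    rw [abs_mul, abs_of_pos p1]
  have a2 : |(1/256 : ℝ) ^ n * ((4 * x - 3 * y) / 5)| = (1/256 : ℝ) ^ n * |(4 * x - 3 * y) / 5| := by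
    rw [abs_mul, abs_of_pos p2]
  unfold Near
  rw [a1, a2]
  generalize |(3 * x + 4 * y) / 5| = U at *
  generalize |(4 * x - 3 * y) / 5| = V at *
  rcases lt_or_gt_of_ne hn with h0 | h0
  · right
    have hr := ratio_neg n (by omega)
    have hmax : gr n = (2/5) * (1/256 : ℝ) ^ n := by
      unfold gr; rw [max_eq_right]; linarith
    rw [hmax]
    generalize (1/2 : ℝ) ^ n = P at *
    generalize (1/256 : ℝ) ^ n = Q at *
    constructor
    · have t1 : P * U ≤ P * M := mul_le_mul_of_nonneg_left u1 p1.le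
      have t2 : Q * (2/5 * M) ≤ Q * V := mul_le_mul_of_nonneg_left l2 p2.le
      have t3 : 10 * P * M ≤ Q * M := mul_le_mul_of_nonneg_right hr hM0
      nlinarith
    · have t2 : Q * (2/5 * M) ≤ Q * V := mul_le_mul_of_nonneg_left l2 p2.le
      have t4 : Q * (2/5 * b) ≤ Q * (2/5 * M) := by
        apply mul_le_mul_of_nonneg_left _ p2.le; linarith
      linarith
  · left
    have hr := ratio_pos n (by omega)
    have hmax : gr n = (2/5) * (1/2 : ℝ) ^ n := by
      unfold gr; rw [max_eq_left]; linarith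
    rw [hmax]
    generalize (1/2 : ℝ) ^ n = P at *
    generalize (1/256 : ℝ) ^ n = Q at *
    constructor
    · have t1 : Q * V ≤ Q * M := mul_le_mul_of_nonneg_left u2 p2.le
      have t2 : P * (2/5 * M) ≤ P * U := mul_le_mul_of_nonneg_left l1 p1.le
      have t3 : 10 * Q * M ≤ P * M := mul_le_mul_of_nonneg_right hr hM0
      nlinarith
    · have t2 : P * (2/5 * M) ≤ P * U := mul_le_mul_of_nonneg_left l1 p1.le
      have t4 : P * (2/5 * b) ≤ P * (2/5 * M) := by
        apply mul_le_mul_of_nonneg_left _ p1.le; linarith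
      linarith

/-- lower bound for the norm of a product of blocks -/
noncomputable def lb (l : List ℤ) : ℝ := (l.map gr).prod

theorem lb_pos (l : List ℤ) : 0 < lb l := by
  induction l with
  | nil => simp [lb]
  | cons n l ih => simp only [lb, List.map_cons, List.prod_cons] at *; exact mul_pos (gr_pos n) ih

theorem near_W (l : List ℤ) (hl : NZ l) : Near (lb l) (X l) (Y l) := by
  induction l with
  | nil => left; simp [lb, X_nil, Y_nil]
  | cons n l ih =>
    have := near_step n (hl n (by simp)) (lb l) (X l) (Y l) (lb_pos l).le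
      (ih fun x hx => hl x (List.mem_cons_of_mem _ hx))
    rw [← X_cons, ← Y_cons] at this
    simpa [lb] using this

theorem lb_le_nrm (l : List ℤ) (hl : NZ l) : lb l ≤ nrm (W l) := by
  have h1 := le_nrm (W l)
  have h2 := near_W l hl
  have hX : |X l| ≤ nrm (W l) := by
    refine abs_le_of_sq_le_sq ?_ (nrm_nonneg _)
    have : (W l : G) 0 0 = X l := rfl
    rw [this] at h1
    nlinarith [sq_nonneg ((W l : G) 1 0)]
  have hY : |Y l| ≤ nrm (W l) := by
    refine abs_le_of_sq_le_sq ?_ (nrm_nonneg _)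
    have : (W l : G) 1 0 = Y l := rfl
    rw [this] at h1
    nlinarith [sq_nonneg ((W l : G) 0 0)]
  rcases h2 with ⟨_, h⟩ | ⟨_, h⟩
  · exact h.trans hX
  · exact h.trans hY

theorem ad_zpow (n : ℤ) : ad (A ^ n) = (1/512 : ℝ) ^ n := by
  unfold ad
  rw [A_zpow_val, Matrix.det_fin_two]
  simp only [of_apply, cons_val', cons_val_zero, cons_val_one, cons_val_fin_one, mul_zero, sub_zero]
  rw [← mul_zpow, abs_of_pos (zpow_pos (by norm_num) n)]
  norm_num

theorem ad_W (l : List ℤ) : ad (W l) = (l.map fun n => (1/512 : ℝ) ^ n).prod := by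
  induction l with
  | nil => simp [W, ad_one]
  | cons n l ih => rw [W, ad_mul, ad_mul, ad_R, one_mul, ih, ad_zpow]; simp

/-- weight of a block -/
noncomputable def wb (n : ℤ) : ℝ := if n = 0 then 0 else 16 * (1/64 : ℝ) ^ n.natAbs

theorem wb_nonneg (n : ℤ) : 0 ≤ wb n := by unfold wb; split_ifs <;> positivity

theorem pw (c d : ℝ) (q m : ℕ) :
    c ^ m * ((2 / 5 * d ^ m) ^ q)⁻¹ = (5/2) ^ q * (c / d ^ q) ^ m := by
  have h1 : (c / d ^ q) ^ m = c ^ m * (d ^ (m * q))⁻¹ := by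
    rw [div_pow, ← pow_mul, mul_comm q m, div_eq_mul_inv]
  have h2 : ((2 / 5 * d ^ m) ^ q)⁻¹ = (5 / 2) ^ q * (d ^ (m * q))⁻¹ := by
    rw [mul_pow, mul_inv, ← pow_mul, ← inv_pow, show ((2:ℝ) / 5)⁻¹ = 5 / 2 by norm_num]
  rw [h1, h2]; ring

theorem wb_two (n : ℤ) (hn : n ≠ 0) : (1/512 : ℝ) ^ n * (gr n ^ 2)⁻¹ ≤ wb n := by
  unfold wb; rw [if_neg hn]
  rcases lt_or_gt_of_ne hn with h0 | h0
  · obtain ⟨m, rfl⟩ : ∃ m : ℕ, n = -(m : ℤ) := ⟨n.natAbs, by omega⟩
    have hr := ratio_neg (-(m : ℤ)) (by omega)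
    have p1 : 0 < (1/2 : ℝ) ^ (-(m : ℤ)) := zpow_pos (by norm_num) _
    have hmax : gr (-(m : ℤ)) = (2/5) * (256 : ℝ) ^ m := by
      unfold gr; rw [max_eq_right (by linarith)]; simp
    rw [hmax]
    have : (1/512 : ℝ) ^ (-(m : ℤ)) = (512 : ℝ) ^ m := by simp
    rw [this]
    have e1 : (512 : ℝ) ^ m * ((2 / 5 * 256 ^ m) ^ 2)⁻¹ = (25/4) * (1/128 : ℝ) ^ m := by
      rw [pw]; norm_num
    rw [e1]
    have e2 : (1/128 : ℝ) ^ m ≤ (1/64 : ℝ) ^ m := pow_le_pow_left₀ (by norm_num) (by norm_num) m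
    have e3 : (0:ℝ) < (1/64 : ℝ) ^ m := by positivity
    simp only [Int.natAbs_neg, Int.natAbs_natCast]
    linarith
  · obtain ⟨m, rfl⟩ : ∃ m : ℕ, n = (m : ℤ) := ⟨n.natAbs, by omega⟩
    have hr := ratio_pos (m : ℤ) (by omega)
    have p1 : 0 < (1/256 : ℝ) ^ (m : ℤ) := zpow_pos (by norm_num) _
    have hmax : gr (m : ℤ) = (2/5) * (1/2 : ℝ) ^ m := by
      unfold gr; rw [max_eq_left (by linarith), zpow_natCast]
    rw [hmax, zpow_natCast]
    have e1 : (1/512 : ℝ) ^ m * ((2 / 5 * (1/2) ^ m) ^ 2)⁻¹ = (25/4) * (1/128 : ℝ) ^ m := by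
      rw [pw]; norm_num
    rw [e1]
    have e2 : (1/128 : ℝ) ^ m ≤ (1/64 : ℝ) ^ m := pow_le_pow_left₀ (by norm_num) (by norm_num) m
    have e3 : (0:ℝ) < (1/64 : ℝ) ^ m := by positivity
    simp only [Int.natAbs_natCast]
    linarith

theorem wb_three (n : ℤ) (hn : n ≠ 0) : (1/512 : ℝ) ^ n * (gr n ^ 3)⁻¹ ≤ wb n := by
  unfold wb; rw [if_neg hn]
  rcases lt_or_gt_of_ne hn with h0 | h0
  · obtain ⟨m, rfl⟩ : ∃ m : ℕ, n = -(m : ℤ) := ⟨n.natAbs, by omega⟩
    have hr := ratio_neg (-(m : ℤ)) (by omega)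
    have p1 : 0 < (1/2 : ℝ) ^ (-(m : ℤ)) := zpow_pos (by norm_num) _
    have hmax : gr (-(m : ℤ)) = (2/5) * (256 : ℝ) ^ m := by
      unfold gr; rw [max_eq_right (by linarith)]; simp
    rw [hmax]
    have : (1/512 : ℝ) ^ (-(m : ℤ)) = (512 : ℝ) ^ m := by simp
    rw [this]
    have e1 : (512 : ℝ) ^ m * ((2 / 5 * 256 ^ m) ^ 3)⁻¹ = (125/8) * (1/32768 : ℝ) ^ m := by
      rw [pw]; norm_num
    rw [e1]
    have e2 : (1/32768 : ℝ) ^ m ≤ (1/64 : ℝ) ^ m := pow_le_pow_left₀ (by norm_num) (by norm_num) m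
    have e3 : (0:ℝ) < (1/64 : ℝ) ^ m := by positivity
    simp only [Int.natAbs_neg, Int.natAbs_natCast]
    linarith
  · obtain ⟨m, rfl⟩ : ∃ m : ℕ, n = (m : ℤ) := ⟨n.natAbs, by omega⟩
    have hr := ratio_pos (m : ℤ) (by omega)
    have p1 : 0 < (1/256 : ℝ) ^ (m : ℤ) := zpow_pos (by norm_num) _
    have hmax : gr (m : ℤ) = (2/5) * (1/2 : ℝ) ^ m := by
      unfold gr; rw [max_eq_left (by linarith), zpow_natCast]
    rw [hmax, zpow_natCast]
    have e1 : (1/512 : ℝ) ^ m * ((2 / 5 * (1/2) ^ m) ^ 3)⁻¹ = (125/8) * (1/64 : ℝ) ^ m := by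
      rw [pw]; norm_num
    rw [e1]
    have e3 : (0:ℝ) < (1/64 : ℝ) ^ m := by positivity
    simp only [Int.natAbs_natCast]
    linarith

/-- weight of a list of blocks -/
noncomputable def wt (l : List ℤ) : ℝ := (l.map wb).prod

theorem wt_nonneg (l : List ℤ) : 0 ≤ wt l := by
  induction l with
  | nil => simp [wt]
  | cons n l ih => simp only [wt, List.map_cons, List.prod_cons] at *; exact mul_nonneg (wb_nonneg n) ih

theorem ad_lb_le (q : ℕ) (hq : ∀ n : ℤ, n ≠ 0 → (1/512 : ℝ) ^ n * (gr n ^ q)⁻¹ ≤ wb n)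
    (l : List ℤ) (hl : NZ l) : ad (W l) * (lb l ^ q)⁻¹ ≤ wt l := by
  rw [ad_W]
  induction l with
  | nil => simp [lb, wt]
  | cons n l ih =>
    have h1 := hq n (hl n (by simp))
    have h2 := ih fun x hx => hl x (List.mem_cons_of_mem _ hx)
    simp only [lb, wt, List.map_cons, List.prod_cons] at *
    have h3 := mul_le_mul h1 h2 (by
      have := lb_pos l
      simp only [lb] at this
      have h4 : 0 ≤ (l.map fun n => (1/512 : ℝ) ^ n).prod := by
        apply List.prod_nonneg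
        intro a ha
        obtain ⟨m, _, rfl⟩ := List.mem_map.1 ha
        positivity
      positivity) (wb_nonneg n)
    refine le_trans (le_of_eq ?_) h3
    rw [mul_pow, mul_inv]; ring

/-- the quantity bounded by the weight -/
theorem F_le (q : ℕ) (hq : ∀ n : ℤ, n ≠ 0 → (1/512 : ℝ) ^ n * (gr n ^ q)⁻¹ ≤ wb n)
    (b c : Bool) (l : List ℤ) (hl : NZ l) :
    ad (rho b * W l * rho c) * (nrm (rho b * W l * rho c) ^ q)⁻¹ ≤ wt l := by
  have h1 : ad (rho b * W l * rho c) = ad (W l) := by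
    rw [ad_mul, ad_mul]; cases b <;> cases c <;> simp [rho, ad_R, ad_one]
  have h2 : nrm (rho b * W l * rho c) = nrm (W l) := by
    cases b <;> cases c <;> simp [rho, nrm_mul_R, nrm_R_mul]
  rw [h1, h2]
  refine le_trans ?_ (ad_lb_le q hq l hl)
  refine mul_le_mul_of_nonneg_left ?_ (ad_pos _).le
  have := lb_pos l
  exact inv_anti₀ (by positivity) (pow_le_pow_left₀ this.le (lb_le_nrm l hl) q)

end V11328.MX
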