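import Mathlib

/-!
Definitions for the moment exponent of random matrix products.
-/

namespace V11328.MX

open MeasureTheory Filter Topology

variable {d : ℕ}

/-- `GL(d,ℝ)` carries its Borel σ-algebra -/
instance instMS : MeasurableSpace (GL (Fin d) ℝ) := borel _
instance instBS : BorelSpace (GL (Fin d) ℝ) := ⟨rfl⟩

open scoped Matrix.Norms.L2Operator in
/-- the operator norm of `g` for the Euclidean norm on `ℝ^d` -/
noncomputable def nrm (g : GL (Fin d) ℝ) : ℝ := ‖(g : Matrix (Fin d) (Fin d) ℝ)‖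

/-- the `n`-th convolution power of `μ`: the law of a product of `n` independent
`μ`-distributed matrices -/
noncomputable def convPow (μ : Measure (GL (Fin d) ℝ)) : ℕ → Measure (GL (Fin d) ℝ)
  | 0 => Measure.dirac 1
  | n + 1 => μ.mconv (convPow μ n)

/-- `k` is the moment exponent of `μ`: `k t = lim (1/n) log ∫ |g|^t dμ^n(g)` for every real `t` -/
def IsMomentExponent (μ : Measure (GL (Fin d) ℝ)) (k : ℝ → ℝ) : Prop :=
  ∀ t : ℝ, Tendsto (fun n : ℕ => (1 / (n : ℝ)) * Real.log (∫ g, nrm g ^ t ∂(convPow μ n)))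
    atTop (𝓝 (k t))

/-- the closed semigroup generated by the support of `μ` -/
def closedSemigroup (μ : Measure (GL (Fin d) ℝ)) : Set (GL (Fin d) ℝ) :=
  closure (Subsemigroup.closure μ.support : Set (GL (Fin d) ℝ))

/-- the `i`-th exterior power of a real vector space -/
def ExtPow (i : ℕ) (M : Type) [AddCommGroup M] [Module ℝ M] : Type := ⋀[ℝ]^i M

section
variable (i : ℕ) (M : Type) [AddCommGroup M] [Module ℝ M]
noncomputable instance : AddCommGroup (ExtPow i M) := inferInstanceAs (AddCommGroup (⋀[ℝ]^i M))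
noncomputable instance : Module ℝ (ExtPow i M) := inferInstanceAs (Module ℝ (⋀[ℝ]^i M))
instance [Module.Free ℝ M] : Module.Free ℝ (ExtPow i M) := inferInstanceAs (Module.Free ℝ (⋀[ℝ]^i M))
instance [Module.Finite ℝ M] : Module.Finite ℝ (ExtPow i M) := inferInstanceAs (Module.Finite ℝ (⋀[ℝ]^i M))
/-- the map between `i`-th exterior powers induced by a linear map -/
noncomputable def ExtPow.map {M : Type} [AddCommGroup M] [Module ℝ M] (f : M →ₗ[ℝ] M) : ExtPow i M →ₗ[ℝ] ExtPow i M := exteriorPower.map i f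
end

/-- the exterior power `∧^i ℝ^d` -/
def Ext (d i : ℕ) : Type := ExtPow i (Fin d → ℝ)

noncomputable instance (i : ℕ) : AddCommGroup (Ext d i) := inferInstanceAs (AddCommGroup (ExtPow i (Fin d → ℝ)))
noncomputable instance (i : ℕ) : Module ℝ (Ext d i) := inferInstanceAs (Module ℝ (ExtPow i (Fin d → ℝ)))
instance (i : ℕ) : Module.Free ℝ (Ext d i) := inferInstanceAs (Module.Free ℝ (ExtPow i (Fin d → ℝ)))
instance (i : ℕ) : Module.Finite ℝ (Ext d i) := inferInstanceAs (Module.Finite ℝ (ExtPow i (Fin d → ℝ)))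

/-- the natural action of `g` on `∧^i ℝ^d` -/
noncomputable def wedge (i : ℕ) (g : GL (Fin d) ℝ) : Ext d i →ₗ[ℝ] Ext d i :=
  ExtPow.map i (Matrix.mulVecLin (g : Matrix (Fin d) (Fin d) ℝ))

/-- no finite union of proper nonzero subspaces of `∧^i ℝ^d` is invariant under the action of
all elements of `S` -/
def StronglyIrreducible (S : Set (GL (Fin d) ℝ)) (i : ℕ) : Prop :=
  ∀ 𝓕 : Set (Submodule ℝ (Ext d i)), 𝓕.Finite → 𝓕.Nonempty →
    (∀ U ∈ 𝓕, U ≠ ⊥ ∧ U ≠ ⊤) →
    ¬ ∀ g ∈ S, ∀ U ∈ 𝓕, ∀ v ∈ U, ∃ U' ∈ 𝓕, wedge i g v ∈ U'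

/-- the linear map `φ` has a simple eigenvalue of strictly largest modulus (eigenvalues are the
complex roots of the characteristic polynomial) -/
def HasDominantSimple {V : Type*} [AddCommGroup V] [Module ℝ V] [Module.Free ℝ V]
    [Module.Finite ℝ V] (φ : Module.End ℝ V) : Prop :=
  ∃ z : ℂ, (φ.charpoly.map (algebraMap ℝ ℂ)).rootMultiplicity z = 1 ∧
    ∀ w ∈ (φ.charpoly.map (algebraMap ℝ ℂ)).roots, w ≠ z → ‖w‖ < ‖z‖

/-- some element of `S` acts on `∧^i ℝ^d` with a simple eigenvalue of strictly largest modulus -/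
def Proximal (S : Set (GL (Fin d) ℝ)) (i : ℕ) : Prop :=
  ∃ g ∈ S, HasDominantSimple (wedge i g)

/-- fully strongly irreducible and fully proximal -/
def Fully (μ : Measure (GL (Fin d) ℝ)) : Prop :=
  ∀ i : ℕ, 1 ≤ i → i ≤ d - 1 →
    StronglyIrreducible (closedSemigroup μ) i ∧ Proximal (closedSemigroup μ) i
end V11328.MX

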