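import Mathlib

/-!
Sums over words in a group, along the Cayley graph of a symmetric finite alphabet.
-/

namespace V11328.MX

open Finset

variable {G : Type*} [Group G] {ι : Type*} [Fintype ι]

/-- the sum of `f` over all products `s i₁ * ... * s iₙ` of `n` letters -/
def J (s : ι → G) : ℕ → (G → ℝ) → ℝ
  | 0, f => f 1
  | n + 1, f => ∑ i, J s n (fun g => f (s i * g))

variable (s : ι → G)

theorem J_zero (f : G → ℝ) : J s 0 f = f 1 := rfl
theorem J_succ (n : ℕ) (f : G → ℝ) : J s (n + 1) f = ∑ i, J s n (fun g => f (s i * g)) := rfl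

theorem J_add (n : ℕ) (f g : G → ℝ) : J s n (fun x => f x + g x) = J s n f + J s n g := by
  induction n generalizing f g with
  | zero => rfl
  | succ n ih => simp only [J_succ, ih, sum_add_distrib]

theorem J_smul (n : ℕ) (c : ℝ) (f : G → ℝ) : J s n (fun x => c * f x) = c * J s n f := by
  induction n generalizing f with
  | zero => rfl
  | succ n ih => simp only [J_succ, ih, mul_sum]

theorem J_mul_const (n : ℕ) (c : ℝ) (f : G → ℝ) : J s n (fun x => f x * c) = J s n f * c := by
  have := J_smul s n c f
  simp only [mul_comm c] at this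
  exact this

theorem J_zero_fun (n : ℕ) : J s n (fun _ => 0) = 0 := by
  have := J_smul s n 0 (fun _ => 0)
  simpa using this

theorem J_sum {κ : Type*} (n : ℕ) (T : Finset κ) (f : κ → G → ℝ) :
    J s n (fun x => ∑ k ∈ T, f k x) = ∑ k ∈ T, J s n (f k) := by
  classical
  induction T using Finset.induction_on with
  | empty => simpa using J_zero_fun s n
  | insert a T ha ih => simp only [sum_insert ha, J_add, ih]

theorem J_mono (n : ℕ) {f g : G → ℝ} (h : ∀ x, f x ≤ g x) : J s n f ≤ J s n g := by
  induction n generalizing f g with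
  | zero => exact h 1
  | succ n ih => exact sum_le_sum fun i _ => ih fun x => h _

theorem J_nonneg (n : ℕ) {f : G → ℝ} (h : ∀ x, 0 ≤ f x) : 0 ≤ J s n f := by
  have := J_mono s n (f := fun _ => 0) (g := f) h
  rwa [J_zero_fun] at this

theorem J_pos [Nonempty ι] (n : ℕ) {f : G → ℝ} (h : ∀ x, 0 < f x) : 0 < J s n f := by
  induction n generalizing f with
  | zero => exact h 1
  | succ n ih => exact sum_pos (fun i _ => ih fun x => h _) univ_nonempty

/-- append on the right -/
theorem J_right (n : ℕ) (f : G → ℝ) : J s (n + 1) f = ∑ i, J s n (fun g => f (g * s i)) := by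
  induction n generalizing f with
  | zero => simp [J]
  | succ n ih =>
    calc J s (n + 1 + 1) f = ∑ i, ∑ j, J s n (fun g => f (s i * (g * s j))) := by
          rw [J_succ]
          exact sum_congr rfl fun i _ => ih _
      _ = ∑ j, ∑ i, J s n (fun g => f (s i * (g * s j))) := sum_comm
      _ = _ := by
          refine sum_congr rfl fun j _ => ?_
          rw [J_succ]
          refine sum_congr rfl fun i _ => ?_
          simp only [mul_assoc]

theorem J_append (m n : ℕ) (f : G → ℝ) :
    J s (m + n) f = J s m (fun x => J s n (fun y => f (x * y))) := by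
  induction m generalizing f with
  | zero => simp [J]
  | succ m ih =>
    rw [show m + 1 + n = (m + n) + 1 by ring, J_succ, J_succ]
    refine sum_congr rfl fun i _ => ?_
    rw [ih]
    simp only [mul_assoc]

theorem J_inv (e : ι ≃ ι) (he : ∀ i, s (e i) = (s i)⁻¹) (n : ℕ) (f : G → ℝ) :
    J s n (fun x => f x⁻¹) = J s n f := by
  induction n generalizing f with
  | zero => simp [J]
  | succ n ih =>
    rw [J_succ, J_right]
    have h1 : ∀ i, J s n (fun g => f (s i * g)⁻¹) = J s n (fun x => f (x * s (e i))) := by
      intro i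
      have := ih (fun x => f (x * s (e i)))
      rw [← this]
      congr 1
      funext g
      rw [he, mul_inv_rev]
    simp only [h1]
    exact Equiv.sum_comp e (fun i => J s n (fun x => f (x * s i)))

section supp
variable [DecidableEq G]

/-- the finite set of elements reachable in `n` steps -/
def reach : ℕ → Finset G
  | 0 => {1}
  | n + 1 => univ.biUnion fun i => (reach n).image (fun g => s i * g)

theorem J_congr (n : ℕ) {f g : G → ℝ} (h : ∀ x ∈ reach s n, f x = g x) : J s n f = J s n g := by
  induction n generalizing f g with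
  | zero => exact h 1 (by simp [reach])
  | succ n ih =>
    refine sum_congr rfl fun i _ => ih fun x hx => h _ ?_
    simp only [reach, mem_biUnion, mem_univ, true_and, mem_image]
    exact ⟨i, x, hx, rfl⟩

/-- number of words of length `n` with product `γ` -/
noncomputable def cnt (n : ℕ) (γ : G) : ℝ := J s n (fun x => if x = γ then 1 else 0)

theorem cnt_nonneg (n : ℕ) (γ : G) : 0 ≤ cnt s n γ :=
  J_nonneg s n fun x => by split_ifs <;> norm_num

theorem J_eq (n : ℕ) (f : G → ℝ) : J s n f = ∑ γ ∈ reach s n, f γ * cnt s n γ := by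
  have h : J s n f = J s n (fun x => ∑ γ ∈ reach s n, f γ * (if x = γ then 1 else 0)) := by
    refine J_congr s n fun x hx => ?_
    simp [hx]
  rw [h, J_sum]
  exact sum_congr rfl fun γ _ => J_smul s n _ _

theorem cnt_sq (e : ι ≃ ι) (he : ∀ i, s (e i) = (s i)⁻¹) (n : ℕ) (γ : G) :
    cnt s n γ ^ 2 ≤ cnt s (n + n) 1 := by
  unfold cnt
  rw [J_append]
  have h1 : J s n (fun y => if γ * y = 1 then (1:ℝ) else 0)
      = J s n (fun x => if x = γ then 1 else 0) := by
    rw [← J_inv s e he n (fun x => if x = γ then (1:ℝ) else 0)]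
    congr 1
    funext y
    have : (γ * y = 1) ↔ (y⁻¹ = γ) := by
      constructor
      · intro h; rw [mul_eq_one_iff_eq_inv] at h; exact h.symm
      · intro h; rw [← h]; simp
    simp only [this]
  calc (J s n fun x => if x = γ then (1:ℝ) else 0) ^ 2
      = J s n (fun x => (if x = γ then (1:ℝ) else 0) *
          J s n (fun y => if γ * y = 1 then (1:ℝ) else 0)) := by
        rw [J_mul_const, h1, sq]
    _ ≤ J s n (fun x => J s n (fun y => if x * y = 1 then (1:ℝ) else 0)) := by
        refine J_mono s n fun x => ?_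
        by_cases hx : x = γ
        · simp [hx]
        · simp only [hx, if_false, zero_mul]
          exact J_nonneg s n fun y => by split_ifs <;> norm_num

/-- the basic inequality: the sum over words is at most the square root of the number of closed
words of twice the length, times the sum over the group elements reached -/
theorem J_sq_le (e : ι ≃ ι) (he : ∀ i, s (e i) = (s i)⁻¹) (n : ℕ) (f : G → ℝ)
    (hf : ∀ x, 0 ≤ f x) {C : ℝ} (hC : ∑ γ ∈ reach s n, f γ ≤ C) :
    J s n f ^ 2 ≤ C ^ 2 * cnt s (n + n) 1 := by
  have h0 : 0 ≤ cnt s (n + n) 1 := cnt_nonneg s _ _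
  have hC0 : 0 ≤ C := le_trans (sum_nonneg fun x _ => hf x) hC
  have h1 : J s n f ≤ C * Real.sqrt (cnt s (n + n) 1) := by
    rw [J_eq]
    calc ∑ γ ∈ reach s n, f γ * cnt s n γ
        ≤ ∑ γ ∈ reach s n, f γ * Real.sqrt (cnt s (n + n) 1) := by
          refine sum_le_sum fun γ _ => mul_le_mul_of_nonneg_left ?_ (hf γ)
          exact Real.le_sqrt_of_sq_le (cnt_sq s e he n γ)
      _ = (∑ γ ∈ reach s n, f γ) * Real.sqrt (cnt s (n + n) 1) := by rw [sum_mul]
      _ ≤ _ := mul_le_mul_of_nonneg_right hC (Real.sqrt_nonneg _)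
  calc J s n f ^ 2 ≤ (C * Real.sqrt (cnt s (n + n) 1)) ^ 2 :=
        pow_le_pow_left₀ (J_nonneg s n hf) h1 2
    _ = C ^ 2 * cnt s (n + n) 1 := by rw [mul_pow, Real.sq_sqrt h0]

end supp

end V11328.MX
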