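import Pool.Agent.V11328.MX.Defs
import Pool.Agent.V11328.MX.Walk

/-!
The two matrices of the example and the properties of their norms.
-/

namespace V11328.MX

open Matrix Finset

abbrev G := GL (Fin 2) ℝ

/-- the contraction `diag(1/2, 1/256)` -/
noncomputable def A : G where
  val := !![1/2, 0; 0, 1/256]
  inv := !![2, 0; 0, 256]
  val_inv := by ext i j; fin_cases i <;> fin_cases j <;> norm_num [Matrix.mul_apply, Fin.sum_univ_two]
  inv_val := by ext i j; fin_cases i <;> fin_cases j <;> norm_num [Matrix.mul_apply, Fin.sum_univ_two]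

/-- a reflection with rational entries -/
noncomputable def R : G where
  val := !![3/5, 4/5; 4/5, -3/5]
  inv := !![3/5, 4/5; 4/5, -3/5]
  val_inv := by ext i j; fin_cases i <;> fin_cases j <;> norm_num [Matrix.mul_apply, Fin.sum_univ_two]
  inv_val := by ext i j; fin_cases i <;> fin_cases j <;> norm_num [Matrix.mul_apply, Fin.sum_univ_two]

theorem R_inv : R⁻¹ = R := by
  ext i j; rfl

theorem R_mul_R : R * R = 1 := by
  nth_rw 1 [← R_inv]
  exact inv_mul_cancel R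

theorem A_val : (A : Matrix (Fin 2) (Fin 2) ℝ) = !![1/2, 0; 0, 1/256] := rfl
theorem Ai_val : ((A⁻¹ : G) : Matrix (Fin 2) (Fin 2) ℝ) = !![2, 0; 0, 256] := rfl
theorem R_val : (R : Matrix (Fin 2) (Fin 2) ℝ) = !![3/5, 4/5; 4/5, -3/5] := rfl

/-- the absolute value of the determinant -/
noncomputable def ad (g : G) : ℝ := |(g : Matrix (Fin 2) (Fin 2) ℝ).det|

theorem ad_mul (g h : G) : ad (g * h) = ad g * ad h := by
  unfold ad; rw [Units.val_mul, Matrix.det_mul, abs_mul]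

theorem ad_one : ad 1 = 1 := by unfold ad; simp

theorem ad_pos (g : G) : 0 < ad g := by
  unfold ad
  rw [abs_pos]
  have : IsUnit (g : Matrix (Fin 2) (Fin 2) ℝ) := g.isUnit
  rw [Matrix.isUnit_iff_isUnit_det] at this
  exact this.ne_zero

theorem ad_A : ad A = 1/512 := by
  unfold ad; rw [A_val, Matrix.det_fin_two]; norm_num [abs_of_pos]

theorem ad_Ai : ad A⁻¹ = 512 := by
  unfold ad; rw [Ai_val, Matrix.det_fin_two]; norm_num [abs_of_pos]

theorem ad_R : ad R = 1 := by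
  unfold ad; rw [R_val, Matrix.det_fin_two]; norm_num [abs_of_neg]

theorem nrm_eq (g : G) : nrm g =
    ‖Matrix.toEuclideanCLM (n := Fin 2) (𝕜 := ℝ) (g : Matrix (Fin 2) (Fin 2) ℝ)‖ := rfl

theorem nrm_mul_le (g h : G) : nrm (g * h) ≤ nrm g * nrm h := by
  rw [nrm_eq, nrm_eq, nrm_eq, Units.val_mul, map_mul]; exact norm_mul_le _ _

theorem nrm_one : nrm (1 : G) = 1 := by
  rw [nrm_eq, Units.val_one, map_one]; exact norm_one

theorem nrm_nonneg (g : G) : 0 ≤ nrm g := by rw [nrm_eq]; exact norm_nonneg _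

theorem nrm_pos (g : G) : 0 < nrm g := by
  have h : 1 ≤ nrm g * nrm g⁻¹ := by
    rw [← nrm_one, ← mul_inv_cancel g]; exact nrm_mul_le _ _
  rcases (nrm_nonneg g).lt_or_eq with h1 | h1
  · exact h1
  · rw [← h1] at h; norm_num at h

theorem nrm_le (g : G) (c : ℝ) (hc : 0 ≤ c)
    (h : ∀ x y : ℝ, (g 0 0 * x + g 0 1 * y) ^ 2 + (g 1 0 * x + g 1 1 * y) ^ 2
      ≤ c ^ 2 * (x ^ 2 + y ^ 2)) : nrm g ≤ c := by
  rw [nrm_eq]
  refine ContinuousLinearMap.opNorm_le_bound _ hc fun v => ?_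
  have h2 := h (v 0) (v 1)
  rw [EuclideanSpace.norm_eq, EuclideanSpace.norm_eq, ← Real.sqrt_sq hc, ← Real.sqrt_mul (sq_nonneg c)]
  refine Real.sqrt_le_sqrt ?_
  simp only [Fin.sum_univ_two, Real.norm_eq_abs, sq_abs]
  have e0 : (Matrix.toEuclideanCLM (n := Fin 2) (𝕜 := ℝ) (g : Matrix (Fin 2) (Fin 2) ℝ) v) 0
      = g 0 0 * v 0 + g 0 1 * v 1 := by
    rw [Matrix.ofLp_toEuclideanCLM]; simp [Matrix.mulVec, dotProduct, Fin.sum_univ_two]
  have e1 : (Matrix.toEuclideanCLM (n := Fin 2) (𝕜 := ℝ) (g : Matrix (Fin 2) (Fin 2) ℝ) v) 1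
      = g 1 0 * v 0 + g 1 1 * v 1 := by
    rw [Matrix.ofLp_toEuclideanCLM]; simp [Matrix.mulVec, dotProduct, Fin.sum_univ_two]
  rw [e0, e1]
  exact h2

theorem le_nrm (g : G) : (g 0 0) ^ 2 + (g 1 0) ^ 2 ≤ nrm g ^ 2 := by
  have h := ContinuousLinearMap.le_opNorm
    (Matrix.toEuclideanCLM (n := Fin 2) (𝕜 := ℝ) (g : Matrix (Fin 2) (Fin 2) ℝ))
    (EuclideanSpace.single 0 1)
  rw [← nrm_eq, PiLp.norm_single, norm_one, mul_one, EuclideanSpace.norm_eq] at h
  have h2 := pow_le_pow_left₀ (Real.sqrt_nonneg _) h 2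
  rw [Real.sq_sqrt (by positivity)] at h2
  simp only [Fin.sum_univ_two, Real.norm_eq_abs, sq_abs] at h2
  have e : ∀ i, (Matrix.toEuclideanCLM (n := Fin 2) (𝕜 := ℝ) (g : Matrix (Fin 2) (Fin 2) ℝ)
      (EuclideanSpace.single 0 1)) i = g i 0 := by
    intro i
    rw [Matrix.ofLp_toEuclideanCLM]; simp [Matrix.mulVec, dotProduct, Fin.sum_univ_two]
  rw [e 0, e 1] at h2
  exact h2

theorem nrm_A : nrm A ≤ 1/2 := by
  refine nrm_le _ _ (by norm_num) fun x y => ?_
  rw [A_val]; simp only [of_apply, cons_val', cons_val_zero, cons_val_one, cons_val_fin_one]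
  nlinarith [sq_nonneg x, sq_nonneg y]

theorem nrm_Ai : nrm A⁻¹ ≤ 256 := by
  refine nrm_le _ _ (by norm_num) fun x y => ?_
  rw [Ai_val]; simp only [of_apply, cons_val', cons_val_zero, cons_val_one, cons_val_fin_one]
  nlinarith [sq_nonneg x, sq_nonneg y]

theorem nrm_R : nrm R ≤ 1 := by
  refine nrm_le _ _ (by norm_num) fun x y => ?_
  rw [R_val]; simp only [of_apply, cons_val', cons_val_zero, cons_val_one, cons_val_fin_one]
  nlinarith [sq_nonneg x, sq_nonneg y]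

theorem nrm_R_mul (g : G) : nrm (R * g) = nrm g := by
  apply le_antisymm
  · calc nrm (R * g) ≤ nrm R * nrm g := nrm_mul_le _ _
      _ ≤ 1 * nrm g := mul_le_mul_of_nonneg_right nrm_R (nrm_nonneg _)
      _ = _ := one_mul _
  · calc nrm g = nrm (R * (R * g)) := by rw [← mul_assoc, R_mul_R, one_mul]
      _ ≤ nrm R * nrm (R * g) := nrm_mul_le _ _
      _ ≤ 1 * nrm (R * g) := mul_le_mul_of_nonneg_right nrm_R (nrm_nonneg _)
      _ = _ := one_mul _

theorem nrm_mul_R (g : G) : nrm (g * R) = nrm g := by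
  apply le_antisymm
  · calc nrm (g * R) ≤ nrm g * nrm R := nrm_mul_le _ _
      _ ≤ nrm g * 1 := mul_le_mul_of_nonneg_left nrm_R (nrm_nonneg _)
      _ = _ := mul_one _
  · calc nrm g = nrm ((g * R) * R) := by rw [mul_assoc, R_mul_R, mul_one]
      _ ≤ nrm (g * R) * nrm R := nrm_mul_le _ _
      _ ≤ nrm (g * R) * 1 := mul_le_mul_of_nonneg_left nrm_R (nrm_nonneg _)
      _ = _ := mul_one _

end V11328.MX
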