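import Pool.Agent.V11328.MX.Moment

/-!
The measure of the example: its moments, its support, irreducibility and proximality.
-/

namespace V11328.MX

open MeasureTheory Finset Filter Topology Matrix

instance : T2Space (Matrix (Fin 2) (Fin 2) ℝ) := inferInstanceAs (T2Space (Fin 2 → Fin 2 → ℝ))

instance : SecondCountableTopology (Matrix (Fin 2) (Fin 2) ℝ) :=
  inferInstanceAs (SecondCountableTopology (Fin 2 → Fin 2 → ℝ))

instance : SecondCountableTopology (Matrix (Fin 2) (Fin 2) ℝ)ᵐᵒᵖ :=
  MulOpposite.opHomeomorph.symm.isInducing.secondCountableTopology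

instance : SecondCountableTopology G := Units.isEmbedding_embedProduct.secondCountableTopology

/-- the measure of the example -/
noncomputable def mu : Measure G :=
  ENNReal.ofReal (al * ad (s 0)) • Measure.dirac (s 0) +
  ENNReal.ofReal (al * ad (s 1)) • Measure.dirac (s 1) +
  ENNReal.ofReal (al * ad (s 2)) • Measure.dirac (s 2)

theorem p_pos (i : Fin 3) : 0 < al * ad (s i) := mul_pos al_pos (ad_pos _)

instance : IsProbabilityMeasure mu := by
  constructor
  unfold mu
  simp only [Measure.coe_add, Measure.coe_smul, Pi.add_apply, Pi.smul_apply, measure_univ,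
    smul_eq_mul, mul_one]
  rw [← ENNReal.ofReal_add (p_pos 0).le (p_pos 1).le,
    ← ENNReal.ofReal_add (add_pos (p_pos 0) (p_pos 1)).le (p_pos 2).le]
  have := sum_p
  rw [Fin.sum_univ_three] at this
  rw [this, ENNReal.ofReal_one]

instance (n : ℕ) : IsProbabilityMeasure (convPow mu n) := by
  induction n with
  | zero => unfold convPow; infer_instance
  | succ n ih =>
    unfold convPow
    infer_instance

theorem conv_eq (ν : Measure G) [IsProbabilityMeasure ν] :
    mu.mconv ν =
      ENNReal.ofReal (al * ad (s 0)) • ν.map (fun y => s 0 * y) +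
      ENNReal.ofReal (al * ad (s 1)) • ν.map (fun y => s 1 * y) +
      ENNReal.ofReal (al * ad (s 2)) • ν.map (fun y => s 2 * y) := by
  unfold mu
  rw [Measure.add_mconv, Measure.add_mconv, Measure.mconv_smul_left, Measure.mconv_smul_left,
    Measure.mconv_smul_left, Measure.dirac_mconv, Measure.dirac_mconv, Measure.dirac_mconv]

theorem integral_convPow (n : ℕ) : ∀ f : G → ℝ, Continuous f →
    Integrable f (convPow mu n) ∧
      ∫ g, f g ∂(convPow mu n) = al ^ n * J s n (fun g => ad g * f g) := by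
  induction n with
  | zero =>
    intro f hf
    unfold convPow
    refine ⟨integrable_dirac (by simp), ?_⟩
    rw [integral_dirac]
    simp [J, ad_one]
  | succ n ih =>
    intro f hf
    have hc : ∀ i : Fin 3, Continuous (fun y : G => f (s i * y)) := fun i =>
      hf.comp (continuous_const.mul continuous_id)
    have hm : ∀ i : Fin 3, Measurable (fun y : G => s i * y) := fun i =>
      (continuous_const.mul continuous_id).measurable
    have hI : ∀ i : Fin 3, Integrable f ((convPow mu n).map (fun y => s i * y)) := by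
      intro i
      rw [integrable_map_measure hf.aestronglyMeasurable (hm i).aemeasurable]
      exact (ih _ (hc i)).1
    have hI2 : ∀ i : Fin 3, Integrable f
        (ENNReal.ofReal (al * ad (s i)) • (convPow mu n).map (fun y => s i * y)) := fun i =>
      (hI i).smul_measure ENNReal.ofReal_ne_top
    show Integrable f (mu.mconv (convPow mu n)) ∧ ∫ g, f g ∂(mu.mconv (convPow mu n)) = _
    rw [conv_eq]
    refine ⟨((hI2 0).add_measure (hI2 1)).add_measure (hI2 2), ?_⟩
    rw [integral_add_measure ((hI2 0).add_measure (hI2 1)) (hI2 2),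
      integral_add_measure (hI2 0) (hI2 1), integral_smul_measure, integral_smul_measure,
      integral_smul_measure, J_succ, Fin.sum_univ_three]
    have key : ∀ i : Fin 3, (ENNReal.ofReal (al * ad (s i))).toReal •
        ∫ g, f g ∂((convPow mu n).map (fun y => s i * y))
        = al ^ (n + 1) * J s n (fun g => ad (s i * g) * f (s i * g)) := by
      intro i
      rw [integral_map (hm i).aemeasurable hf.aestronglyMeasurable, (ih _ (hc i)).2,
        ENNReal.toReal_ofReal (p_pos i).le, smul_eq_mul]
      have : J s n (fun g => ad (s i * g) * f (s i * g))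
          = ad (s i) * J s n (fun g => ad g * f (s i * g)) := by
        rw [← J_smul]
        congr 1
        funext g
        rw [ad_mul]; ring
      rw [this]; ring
    rw [key 0, key 1, key 2]
    ring

theorem continuous_nrm : Continuous (nrm : G → ℝ) := by
  let L : Matrix (Fin 2) (Fin 2) ℝ →ₗ[ℝ] (EuclideanSpace ℝ (Fin 2) →L[ℝ] EuclideanSpace ℝ (Fin 2)) :=
    { toFun := fun M => Matrix.toEuclideanCLM (n := Fin 2) (𝕜 := ℝ) M
      map_add' := fun x y => map_add _ x y
      map_smul' := fun c x => map_smul _ c x }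
  have h1 : Continuous L := LinearMap.continuous_of_finiteDimensional _
  have h2 : Continuous (fun g : G => ‖L g.val‖) := (h1.comp Units.continuous_val).norm
  exact h2

theorem integral_nrm (n : ℕ) (t : ℝ) : ∫ g, nrm g ^ t ∂(convPow mu n) = a n t := by
  have := (integral_convPow n (fun g => nrm g ^ t)
    (continuous_nrm.rpow_const fun g => Or.inl (nrm_pos g).ne')).2
  rw [this]; rfl

theorem isMomentExponent : IsMomentExponent mu kk := by
  intro t
  have := kk_spec t
  simpa only [integral_nrm] using this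

theorem mu_mem_support (i : Fin 3) : s i ∈ mu.support := by
  rw [Measure.mem_support_iff_forall]
  intro U hU
  have h1 : s i ∈ U := mem_of_mem_nhds hU
  have key : ENNReal.ofReal (al * ad (s i)) ≤ mu U := by
    have hd : Measure.dirac (s i) U = 1 := Measure.dirac_apply_of_mem h1
    have hle : ENNReal.ofReal (al * ad (s i)) • Measure.dirac (s i) ≤ mu := by
      unfold mu
      fin_cases i
      · exact Measure.le_add_right (Measure.le_add_right le_rfl)
      · exact Measure.le_add_right (Measure.le_add_left le_rfl)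
      · exact Measure.le_add_left le_rfl
    have := hle U
    simpa [hd] using this
  exact lt_of_lt_of_le (ENNReal.ofReal_pos.2 (p_pos i)) key

theorem support_subset : mu.support ⊆ Set.range s := by
  have hcl : IsClosed (Set.range s) := (Set.finite_range s).isClosed
  refine Measure.support_subset_of_isClosed hcl ?_
  rw [mem_ae_iff]
  have h : ∀ i, Measure.dirac (s i) (Set.range s)ᶜ = 0 := by
    intro i
    rw [Measure.dirac_apply' _ hcl.measurableSet.compl]
    simp
  unfold mu
  simp [h]

theorem isCompact_support : IsCompact mu.support :=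
  (Set.finite_range s).isCompact.of_isClosed_subset Measure.isClosed_support support_subset

theorem s_mem (i : Fin 3) : s i ∈ closedSemigroup mu :=
  subset_closure (Subsemigroup.subset_closure (mu_mem_support i))

/-- `∧^1 ℝ^2` is `ℝ^2` -/
noncomputable def E1 : Ext 2 1 ≃ₗ[ℝ] (Fin 2 → ℝ) := exteriorPower.oneEquiv ℝ (Fin 2 → ℝ)

theorem E1_nat (g : G) (x : Ext 2 1) : E1 (wedge 1 g x) = Matrix.toLin' g.val (E1 x) := by
  have hn := exteriorPower.oneEquiv_naturality (R := ℝ) (Matrix.toLin' g.val)
  have := LinearMap.congr_fun hn x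
  simp only [LinearMap.comp_apply, LinearEquiv.coe_coe] at this
  exact this

theorem proximal : Proximal (closedSemigroup mu) 1 := by
  refine ⟨A⁻¹, s_mem 1, ?_⟩
  have h1 : (wedge 1 A⁻¹ : Module.End ℝ (Ext 2 1)).charpoly
      = (Matrix.toLin' (A⁻¹ : G).val).charpoly := by
    have : E1.conj (wedge 1 A⁻¹) = Matrix.toLin' (A⁻¹ : G).val := by
      refine LinearMap.ext fun v => ?_
      rw [LinearEquiv.conj_apply_apply, E1_nat, LinearEquiv.apply_symm_apply]
    rw [← this, LinearEquiv.charpoly_conj]
  have h2 : (Matrix.toLin' (A⁻¹ : G).val).charpoly = (Polynomial.X - Polynomial.C 2) *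
      (Polynomial.X - Polynomial.C 256) := by
    rw [Matrix.charpoly_toLin', Ai_val, Matrix.charpoly_fin_two]
    have e1 : (!![(2:ℝ), 0; 0, 256]).trace = 2 + 256 := by simp [Matrix.trace_fin_two]
    have e2 : (!![(2:ℝ), 0; 0, 256]).det = 2 * 256 := by simp [Matrix.det_fin_two]
    rw [e1, e2, Polynomial.C_add, Polynomial.C_mul]
    ring
  have h3 : ((wedge 1 A⁻¹ : Module.End ℝ (Ext 2 1)).charpoly.map (algebraMap ℝ ℂ))
      = (Polynomial.X - Polynomial.C 2) * (Polynomial.X - Polynomial.C 256) := by
    rw [h1, h2]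
    simp [Polynomial.map_mul]
  have hne : (Polynomial.X - Polynomial.C (2:ℂ)) * (Polynomial.X - Polynomial.C 256) ≠ 0 :=
    mul_ne_zero (Polynomial.X_sub_C_ne_zero _) (Polynomial.X_sub_C_ne_zero _)
  refine ⟨256, ?_, ?_⟩
  · rw [h3, Polynomial.rootMultiplicity_mul hne, Polynomial.rootMultiplicity_X_sub_C,
      Polynomial.rootMultiplicity_X_sub_C]
    norm_num
  · intro w hw hne'
    rw [h3, Polynomial.roots_mul hne, Polynomial.roots_X_sub_C, Polynomial.roots_X_sub_C] at hw
    simp only [Multiset.mem_add, Multiset.mem_singleton] at hw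
    rcases hw with h | h
    · rw [h]; norm_num
    · exact absurd h hne'

/-- a subspace of the plane containing two independent vectors is everything -/
theorem top_of_two (U : Submodule ℝ (Fin 2 → ℝ)) (v w : Fin 2 → ℝ) (hv : v ∈ U) (hw : w ∈ U)
    (h : v 0 * w 1 - v 1 * w 0 ≠ 0) : U = ⊤ := by
  rw [eq_top_iff]
  intro x _
  have : x = ((x 0 * w 1 - x 1 * w 0) / (v 0 * w 1 - v 1 * w 0)) • v +
      ((v 0 * x 1 - v 1 * x 0) / (v 0 * w 1 - v 1 * w 0)) • w := by
    ext i
    fin_cases i
    · simp only [Pi.add_apply, Pi.smul_apply, smul_eq_mul, Fin.zero_eta]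
      rw [div_mul_eq_mul_div, div_mul_eq_mul_div, ← add_div, eq_div_iff h]
      ring
    · simp only [Pi.add_apply, Pi.smul_apply, smul_eq_mul, Fin.mk_one]
      rw [div_mul_eq_mul_div, div_mul_eq_mul_div, ← add_div, eq_div_iff h]
      ring
  rw [this]
  exact U.add_mem (U.smul_mem _ hv) (U.smul_mem _ hw)

/-- the plane version of strong irreducibility -/
theorem irr_plane (𝓕 : Set (Submodule ℝ (Fin 2 → ℝ))) (hfin : 𝓕.Finite) (hne : 𝓕.Nonempty)
    (hprop : ∀ U ∈ 𝓕, U ≠ ⊥ ∧ U ≠ ⊤)
    (hA : ∀ U ∈ 𝓕, ∀ v ∈ U, ∃ U' ∈ 𝓕, Matrix.toLin' A.val v ∈ U')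
    (hR : ∀ U ∈ 𝓕, ∀ v ∈ U, ∃ U' ∈ 𝓕, Matrix.toLin' R.val v ∈ U') : False := by
  have eA : ∀ v : Fin 2 → ℝ, Matrix.toLin' A.val v = ![v 0 / 2, v 1 / 256] := by
    intro v
    rw [Matrix.toLin'_apply, A_val]
    ext i; fin_cases i <;> simp [Matrix.mulVec, dotProduct, Fin.sum_univ_two] <;> ring
  have eR : ∀ v : Fin 2 → ℝ, Matrix.toLin' R.val v =
      ![(3 * v 0 + 4 * v 1) / 5, (4 * v 0 - 3 * v 1) / 5] := by
    intro v
    rw [Matrix.toLin'_apply, R_val]
    ext i; fin_cases i <;> simp [Matrix.mulVec, dotProduct, Fin.sum_univ_two] <;> ring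
  -- no vector of the union has two nonzero coordinates
  have key : ∀ U ∈ 𝓕, ∀ v ∈ U, v 0 ≠ 0 → v 1 ≠ 0 → False := by
    intro U hU v hv h0 h1
    have horb : ∀ n : ℕ, ∃ U' ∈ 𝓕, (![v 0 / 2 ^ n, v 1 / 256 ^ n] : Fin 2 → ℝ) ∈ U' := by
      intro n
      induction n with
      | zero =>
        refine ⟨U, hU, ?_⟩
        convert hv using 1
        ext i; fin_cases i <;> simp
      | succ n ih =>
        obtain ⟨U', hU', hv'⟩ := ih
        obtain ⟨U'', hU'', hv''⟩ := hA U' hU' _ hv'
        refine ⟨U'', hU'', ?_⟩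
        rw [eA] at hv''
        convert hv'' using 1
        ext i; fin_cases i <;> simp [pow_succ] <;> ring
    choose f hf hf' using horb
    have : Finite 𝓕 := hfin
    obtain ⟨m, n, hmn, heq⟩ := Finite.exists_ne_map_eq_of_infinite (fun n : ℕ => (⟨f n, hf n⟩ : 𝓕))
    have heq' : f m = f n := congrArg Subtype.val heq
    have hm := hf' m
    rw [heq'] at hm
    refine (hprop _ (hf n)).2 (top_of_two _ _ _ hm (hf' n) ?_)
    simp only [Matrix.cons_val_zero, Matrix.cons_val_one]
    intro h
    have hp : ∀ k : ℕ, (256:ℝ) ^ k = 2 ^ k * 128 ^ k := fun k => by rw [← mul_pow]; norm_num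
    have p2 : ∀ k : ℕ, (2:ℝ) ^ k ≠ 0 := fun k => by positivity
    have p128 : ∀ k : ℕ, (128:ℝ) ^ k ≠ 0 := fun k => by positivity
    rw [hp, hp] at h
    have h5 : v 0 * v 1 * ((128:ℝ) ^ m - 128 ^ n) = 0 := by
      have h6 := h
      field_simp at h6
      linarith
    have h7 : (128:ℝ) ^ m = 128 ^ n := by
      rcases mul_eq_zero.1 h5 with h8 | h8
      · rcases mul_eq_zero.1 h8 with h9 | h9
        · exact absurd h9 h0
        · exact absurd h9 h1
      · linarith
    have h8 : m = n := by
      have : (128:ℕ) ^ m = 128 ^ n := by exact_mod_cast h7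
      exact Nat.pow_right_injective (by norm_num) this
    exact hmn h8
  obtain ⟨U, hU⟩ := hne
  obtain ⟨v, hv, hv0⟩ := (Submodule.ne_bot_iff U).1 (hprop U hU).1
  obtain ⟨U', hU', hv'⟩ := hR U hU v hv
  rw [eR] at hv'
  by_cases h0 : v 0 = 0
  · have h1 : v 1 ≠ 0 := by
      intro h1; apply hv0; ext i; fin_cases i <;> simp [h0, h1]
    refine key U' hU' _ hv' ?_ ?_
    · simp [h0, h1]
    · simp [h0, h1]
  · by_cases h1 : v 1 = 0
    · refine key U' hU' _ hv' ?_ ?_
      · simp [h0, h1]
      · simp [h0, h1]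
    · exact key U hU v hv h0 h1

theorem stronglyIrreducible : StronglyIrreducible (closedSemigroup mu) 1 := by
  intro 𝓕 hfin hne hprop hinv
  set E := E1 with hE
  have nat := E1_nat
  have tr : ∀ g : G, g ∈ closedSemigroup mu →
      ∀ U ∈ (fun U : Submodule ℝ (Ext 2 1) => U.map E.toLinearMap) '' 𝓕, ∀ v ∈ U,
        ∃ U' ∈ (fun U : Submodule ℝ (Ext 2 1) => U.map E.toLinearMap) '' 𝓕,
          Matrix.toLin' g.val v ∈ U' := by
    rintro g hg _ ⟨U, hU, rfl⟩ v hv
    obtain ⟨x, hx, rfl⟩ := Submodule.mem_map.1 hv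
    obtain ⟨U', hU', hx'⟩ := hinv g hg U hU x hx
    refine ⟨_, ⟨U', hU', rfl⟩, ?_⟩
    show Matrix.toLin' g.val (E x) ∈ U'.map E.toLinearMap
    rw [← nat]
    exact Submodule.mem_map_of_mem hx'
  refine irr_plane _ (hfin.image _) (hne.image _) ?_ (tr A (s_mem 0)) (tr R (s_mem 2))
  rintro _ ⟨U, hU, rfl⟩
  refine ⟨?_, ?_⟩
  · intro h
    apply (hprop U hU).1
    have h' : U.map E.toLinearMap = ⊥ := h
    rw [eq_bot_iff]
    intro x hx
    have h1 : E x ∈ U.map E.toLinearMap := Submodule.mem_map_of_mem hx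
    rw [h', Submodule.mem_bot, LinearEquiv.map_eq_zero_iff] at h1
    exact h1
  · intro h
    apply (hprop U hU).2
    have h' : U.map E.toLinearMap = ⊤ := h
    rw [eq_top_iff]
    intro x _
    have : E x ∈ U.map E.toLinearMap := by rw [h']; trivial
    obtain ⟨y, hy, hxy⟩ := Submodule.mem_map.1 this
    have : y = x := E.injective hxy
    rwa [← this]

theorem fully : Fully mu := by
  intro i h1 h2
  have : i = 1 := by omega
  subst this
  exact ⟨stronglyIrreducible, proximal⟩

end V11328.MX
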