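import Pool.Agent.V11328.MX.Sum

/-!
The moments `a n t = ∫ |g|^t dμ^n` of the example and their exponential growth rates.
-/

namespace V11328.MX

open Finset Filter Topology

/-- normalising constant -/
noncomputable def al : ℝ := 512/262657

theorem al_pos : 0 < al := by unfold al; norm_num

/-- weighted function -/
noncomputable def F (t : ℝ) (g : G) : ℝ := ad g * nrm g ^ t

theorem F_pos (t : ℝ) (g : G) : 0 < F t g := mul_pos (ad_pos g) (Real.rpow_pos_of_pos (nrm_pos g) t)

/-- the moments -/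
noncomputable def a (n : ℕ) (t : ℝ) : ℝ := al ^ n * J s n (F t)

theorem a_pos (n : ℕ) (t : ℝ) : 0 < a n t :=
  mul_pos (pow_pos al_pos n) (J_pos s n (F_pos t))

theorem nrm_s (i : Fin 3) : nrm (s i) ≤ 256 := by
  fin_cases i
  · exact nrm_A.trans (by norm_num)
  · exact nrm_Ai
  · exact nrm_R.trans (by norm_num)

theorem nrm_s_inv (i : Fin 3) : nrm (s i)⁻¹ ≤ 256 := by
  rw [← he]; exact nrm_s _

theorem nrm_s_mul_le (i : Fin 3) (g : G) : nrm (s i * g) ≤ 256 * nrm g :=
  (nrm_mul_le _ _).trans (mul_le_mul_of_nonneg_right (nrm_s i) (nrm_nonneg g))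

theorem le_nrm_s_mul' (i : Fin 3) (g : G) : nrm g ≤ nrm (s i)⁻¹ * nrm (s i * g) := by
  have := nrm_mul_le (s i)⁻¹ (s i * g)
  rwa [inv_mul_cancel_left] at this

theorem le_nrm_s_mul (i : Fin 3) (g : G) : nrm g ≤ 256 * nrm (s i * g) :=
  (le_nrm_s_mul' i g).trans (mul_le_mul_of_nonneg_right (nrm_s_inv i) (nrm_nonneg _))

theorem rpow_comp (x y t : ℝ) (hx : 0 < x) (hy : 0 < y) (h1 : x ≤ 256 * y) (h2 : y ≤ 256 * x) :
    x ^ t ≤ (256:ℝ) ^ |t| * y ^ t := by
  rcases le_or_gt 0 t with ht | ht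
  · rw [abs_of_nonneg ht, ← Real.mul_rpow (by norm_num) hy.le]
    exact Real.rpow_le_rpow hx.le h1 ht
  · rw [abs_of_neg ht]
    have h3 : y / 256 ≤ x := by linarith
    calc x ^ t ≤ (y / 256) ^ t := Real.rpow_le_rpow_of_nonpos (by positivity) h3 ht.le
      _ = y ^ t / 256 ^ t := Real.div_rpow hy.le (by norm_num) t
      _ = _ := by rw [Real.rpow_neg (by norm_num)]; field_simp

theorem sum_p : ∑ i, al * ad (s i) = 1 := by
  rw [Fin.sum_univ_three, s0, s1, s2, ad_A, ad_Ai, ad_R]
  unfold al; norm_num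

theorem a_succ (n : ℕ) (t : ℝ) :
    a (n + 1) t = ∑ i, (al * ad (s i)) * (al ^ n * J s n (fun g => ad g * nrm (s i * g) ^ t)) := by
  unfold a
  rw [J_succ, mul_sum]
  refine sum_congr rfl fun i _ => ?_
  have : J s n (fun g => F t (s i * g)) = ad (s i) * J s n (fun g => ad g * nrm (s i * g) ^ t) := by
    rw [← J_smul]
    congr 1
    funext g
    unfold F
    rw [ad_mul]; ring
  rw [this]; ring

/-- a bound for each letter gives a bound for the moments -/
theorem a_succ_le (n : ℕ) (t : ℝ) (c : Fin 3 → ℝ)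
    (h : ∀ i g, nrm (s i * g) ^ t ≤ c i * nrm g ^ t) :
    a (n + 1) t ≤ (∑ i, (al * ad (s i)) * c i) * a n t := by
  rw [a_succ, sum_mul]
  refine sum_le_sum fun i _ => ?_
  rw [mul_assoc (al * ad (s i)) (c i)]
  refine mul_le_mul_of_nonneg_left ?_ (mul_pos al_pos (ad_pos _)).le
  unfold a
  rw [mul_left_comm]
  refine mul_le_mul_of_nonneg_left ?_ (pow_pos al_pos n).le
  rw [← J_smul]
  refine J_mono s n fun g => ?_
  unfold F
  have := mul_le_mul_of_nonneg_left (h i g) (ad_pos g).le
  linarith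

theorem a_succ_ge (n : ℕ) (t : ℝ) (c : Fin 3 → ℝ)
    (h : ∀ i g, c i * nrm g ^ t ≤ nrm (s i * g) ^ t) :
    (∑ i, (al * ad (s i)) * c i) * a n t ≤ a (n + 1) t := by
  rw [a_succ, sum_mul]
  refine sum_le_sum fun i _ => ?_
  rw [mul_assoc]
  refine mul_le_mul_of_nonneg_left ?_ (mul_pos al_pos (ad_pos _)).le
  unfold a
  rw [mul_left_comm]
  refine mul_le_mul_of_nonneg_left ?_ (pow_pos al_pos n).le
  rw [← J_smul]
  refine J_mono s n fun g => ?_
  unfold F
  have := mul_le_mul_of_nonneg_left (h i g) (ad_pos g).le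
  linarith

theorem a_zero (t : ℝ) : a 0 t = 1 := by
  simp [a, J, F, ad_one, nrm_one]

theorem a_le_pow (t : ℝ) (n : ℕ) : a n t ≤ ((256:ℝ) ^ |t|) ^ n := by
  induction n with
  | zero => simp [a_zero]
  | succ n ih =>
    have h := a_succ_le n t (fun _ => (256:ℝ) ^ |t|) fun i g =>
      rpow_comp _ _ t (nrm_pos _) (nrm_pos _) (nrm_s_mul_le i g) (le_nrm_s_mul i g)
    rw [← sum_mul, sum_p, one_mul] at h
    refine h.trans ?_
    rw [pow_succ, mul_comm]
    exact mul_le_mul_of_nonneg_right ih (by positivity)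

theorem pow_le_a (t : ℝ) (n : ℕ) : (((256:ℝ) ^ |t|)⁻¹) ^ n ≤ a n t := by
  induction n with
  | zero => simp [a_zero]
  | succ n ih =>
    have h := a_succ_ge n t (fun _ => ((256:ℝ) ^ |t|)⁻¹) fun i g => by
      have := rpow_comp _ _ t (nrm_pos g) (nrm_pos (s i * g)) (le_nrm_s_mul i g) (nrm_s_mul_le i g)
      rw [inv_mul_le_iff₀ (by positivity)]
      exact this
    rw [← sum_mul, sum_p, one_mul] at h
    refine le_trans ?_ h
    rw [pow_succ, mul_comm]
    exact mul_le_mul_of_nonneg_left ih (by positivity)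

theorem a_sub (t : ℝ) (ht : 0 ≤ t) (m n : ℕ) : a (m + n) t ≤ a m t * a n t := by
  unfold a
  rw [J_append, pow_add]
  have h : J s m (fun x => J s n (fun y => F t (x * y))) ≤ J s m (F t) * J s n (F t) := by
    rw [← J_mul_const]
    refine J_mono s m fun x => ?_
    rw [← J_smul]
    refine J_mono s n fun y => ?_
    unfold F
    rw [ad_mul]
    have h1 : nrm (x * y) ^ t ≤ nrm x ^ t * nrm y ^ t := by
      rw [← Real.mul_rpow (nrm_nonneg _) (nrm_nonneg _)]
      exact Real.rpow_le_rpow (nrm_nonneg _) (nrm_mul_le x y) ht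
    have := mul_le_mul_of_nonneg_left h1 (mul_pos (ad_pos x) (ad_pos y)).le
    linarith
  have h2 := mul_le_mul_of_nonneg_left h (mul_pos (pow_pos al_pos m) (pow_pos al_pos n)).le
  linarith

theorem a_sup (t : ℝ) (ht : t ≤ 0) (m n : ℕ) : a m t * a n t ≤ a (m + n) t := by
  unfold a
  rw [J_append, pow_add]
  have h : J s m (F t) * J s n (F t) ≤ J s m (fun x => J s n (fun y => F t (x * y))) := by
    rw [← J_mul_const]
    refine J_mono s m fun x => ?_
    rw [← J_smul]
    refine J_mono s n fun y => ?_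
    unfold F
    rw [ad_mul]
    have h1 : nrm x ^ t * nrm y ^ t ≤ nrm (x * y) ^ t := by
      rw [← Real.mul_rpow (nrm_nonneg _) (nrm_nonneg _)]
      exact Real.rpow_le_rpow_of_nonpos (nrm_pos _) (nrm_mul_le x y) ht
    have := mul_le_mul_of_nonneg_left h1 (mul_pos (ad_pos x) (ad_pos y)).le
    linarith
  have h2 := mul_le_mul_of_nonneg_left h (mul_pos (pow_pos al_pos m) (pow_pos al_pos n)).le
  linarith

theorem abs_log_a (t : ℝ) (n : ℕ) : |Real.log (a n t)| ≤ n * (|t| * Real.log 256) := by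
  have h1 : Real.log (a n t) ≤ n * (|t| * Real.log 256) := by
    have := Real.log_le_log (a_pos n t) (a_le_pow t n)
    rwa [Real.log_pow, Real.log_rpow (by norm_num)] at this
  have h2 : -(n * (|t| * Real.log 256)) ≤ Real.log (a n t) := by
    have := Real.log_le_log (by positivity) (pow_le_a t n)
    rw [Real.log_pow, Real.log_inv, Real.log_rpow (by norm_num)] at this
    linarith
  exact abs_le.2 ⟨h2, h1⟩

theorem bdd (t : ℝ) (n : ℕ) : |Real.log (a n t) / n| ≤ |t| * Real.log 256 := by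
  have hb : 0 ≤ |t| * Real.log 256 := mul_nonneg (abs_nonneg _) (Real.log_nonneg (by norm_num))
  rcases Nat.eq_zero_or_pos n with h | h
  · subst h; simpa using hb
  · have hn : (0:ℝ) < n := by exact_mod_cast h
    rw [abs_div, Nat.abs_cast, div_le_iff₀ hn]
    have := abs_log_a t n
    linarith

theorem ex_lim (t : ℝ) :
    ∃ k : ℝ, Tendsto (fun n : ℕ => (1 / (n : ℝ)) * Real.log (a n t)) atTop (𝓝 k) := by
  rcases le_or_gt 0 t with ht | ht
  · have hs : Subadditive (fun n => Real.log (a n t)) := by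
      intro m n
      rw [← Real.log_mul (a_pos m t).ne' (a_pos n t).ne']
      exact Real.log_le_log (a_pos _ _) (a_sub t ht m n)
    have hb : BddBelow (Set.range fun n : ℕ => Real.log (a n t) / n) :=
      ⟨-(|t| * Real.log 256), by
        rintro _ ⟨n, rfl⟩
        exact (abs_le.1 (bdd t n)).1⟩
    refine ⟨hs.lim, ?_⟩
    have := hs.tendsto_lim hb
    refine this.congr fun n => ?_
    ring
  · have hs : Subadditive (fun n => -Real.log (a n t)) := by
      intro m n
      have := Real.log_le_log (mul_pos (a_pos _ _) (a_pos _ _)) (a_sup t ht.le m n)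
      rw [Real.log_mul (a_pos m t).ne' (a_pos n t).ne'] at this
      linarith
    have hb : BddBelow (Set.range fun n : ℕ => -Real.log (a n t) / n) :=
      ⟨-(|t| * Real.log 256), by
        rintro _ ⟨n, rfl⟩
        have := (abs_le.1 (bdd t n)).2
        simp only [neg_div]
        linarith⟩
    refine ⟨-hs.lim, ?_⟩
    have := (hs.tendsto_lim hb).neg
    refine this.congr fun n => ?_
    ring

/-- the moment exponent -/
noncomputable def kk (t : ℝ) : ℝ := (ex_lim t).choose

theorem kk_spec (t : ℝ) :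
    Tendsto (fun n : ℕ => (1 / (n : ℝ)) * Real.log (a n t)) atTop (𝓝 (kk t)) :=
  (ex_lim t).choose_spec

theorem kk_zero : kk 0 = 0 := by
  have h : ∀ n, a n 0 = 1 := by
    intro n
    apply le_antisymm
    · simpa using a_le_pow 0 n
    · simpa using pow_le_a 0 n
  have := kk_spec 0
  simp only [h, Real.log_one, mul_zero] at this
  exact tendsto_nhds_unique this tendsto_const_nhds

theorem kk_neg_one : kk (-1) < 0 := by
  set c : ℝ := 131840/262657 with hc
  have h : ∀ n, a n (-1) ≤ c ^ n := by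
    intro n
    induction n with
    | zero => simp [a_zero]
    | succ n ih =>
      have h1 := a_succ_le n (-1) ![256, 1/2, 1] (by
        have key : ∀ (i : Fin 3) (g : G) (c : ℝ), 0 < c → nrm (s i)⁻¹ ≤ c →
            nrm (s i * g) ^ (-1 : ℝ) ≤ c * nrm g ^ (-1 : ℝ) := by
          intro i g c hc0 hc
          rw [Real.rpow_neg_one, Real.rpow_neg_one]
          have h2 := le_nrm_s_mul' i g
          have h3 : nrm g ≤ c * nrm (s i * g) :=
            h2.trans (mul_le_mul_of_nonneg_right hc (nrm_nonneg _))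
          rw [← div_eq_mul_inv, le_div_iff₀ (nrm_pos g), inv_mul_le_iff₀ (nrm_pos _), mul_comm]
          exact h3
        intro i g
        fin_cases i
        · exact key 0 g 256 (by norm_num) nrm_Ai
        · refine key 1 g (1/2) (by norm_num) ?_
          rw [s1, inv_inv]; exact nrm_A
        · refine key 2 g 1 (by norm_num) ?_
          rw [s2, R_inv]; exact nrm_R)
      have h2 : ∑ i, (al * ad (s i)) * (![256, 1/2, 1] : Fin 3 → ℝ) i = c := by
        rw [Fin.sum_univ_three, s0, s1, s2, ad_A, ad_Ai, ad_R]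
        simp only [Matrix.cons_val_zero, Matrix.cons_val_one, Matrix.cons_val]
        unfold al; rw [hc]; norm_num
      rw [h2] at h1
      refine h1.trans ?_
      rw [pow_succ, mul_comm]
      exact mul_le_mul_of_nonneg_right ih (by rw [hc]; norm_num)
  have hlog : Real.log c < 0 := Real.log_neg (by rw [hc]; norm_num) (by rw [hc]; norm_num)
  refine lt_of_le_of_lt (le_of_tendsto (kk_spec (-1)) ?_) hlog
  filter_upwards [eventually_gt_atTop 0] with n hn
  have hn' : (0:ℝ) < n := by exact_mod_cast hn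
  have h1 := Real.log_le_log (a_pos n (-1)) (h n)
  rw [Real.log_pow] at h1
  rw [one_div, inv_mul_le_iff₀ hn']
  exact h1

theorem kk_neg_twenty : 0 < kk (-20) := by
  have hA : ∀ n, nrm (A ^ n) ≤ (1/2 : ℝ) ^ n := by
    intro n
    induction n with
    | zero => simp [nrm_one]
    | succ n ih =>
      rw [pow_succ, pow_succ]
      exact (nrm_mul_le _ _).trans (mul_le_mul ih nrm_A (nrm_nonneg _) (by positivity))
  have hJ : ∀ (n : ℕ) (f : G → ℝ), (∀ x, 0 ≤ f x) → f (A ^ n) ≤ J s n f := by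
    intro n
    induction n with
    | zero => intro f _; simp [J]
    | succ n ih =>
      intro f hf
      rw [J_succ]
      have h1 := ih (fun g => f (s 0 * g)) fun x => hf _
      have h2 : J s n (fun g => f (s 0 * g)) ≤ ∑ i, J s n (fun g => f (s i * g)) :=
        single_le_sum (f := fun i => J s n (fun g => f (s i * g)))
          (fun i _ => J_nonneg s n fun x => hf _) (mem_univ 0)
      refine le_trans (le_of_eq ?_) (h1.trans h2)
      rw [s0, pow_succ']
  set c : ℝ := 1048576/262657 with hc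
  have h : ∀ n, c ^ n ≤ a n (-20) := by
    intro n
    have h1 := hJ n (F (-20)) fun x => (F_pos _ _).le
    have h2 : ad (A ^ n) = (1/512 : ℝ) ^ n := by
      have := ad_zpow n
      rwa [zpow_natCast, zpow_natCast] at this
    have h3 : ((1048576:ℝ)) ^ n ≤ nrm (A ^ n) ^ (-20 : ℝ) := by
      have h4 : ((1/2 : ℝ) ^ n) ^ (-20 : ℝ) ≤ nrm (A ^ n) ^ (-20 : ℝ) :=
        Real.rpow_le_rpow_of_nonpos (nrm_pos _) (hA n) (by norm_num)
      refine le_trans (le_of_eq ?_) h4
      rw [← Real.rpow_natCast (1/2) n, ← Real.rpow_mul (by norm_num), mul_comm (n:ℝ),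
        Real.rpow_mul (by norm_num), Real.rpow_natCast]
      congr 1
      rw [Real.rpow_neg (by norm_num)]
      norm_num
    unfold a
    calc c ^ n = al ^ n * ((1/512 : ℝ) ^ n * 1048576 ^ n) := by
          rw [← mul_pow, ← mul_pow]; congr 1; unfold al; rw [hc]; norm_num
      _ ≤ al ^ n * F (-20) (A ^ n) := by
          refine mul_le_mul_of_nonneg_left ?_ (pow_pos al_pos n).le
          unfold F; rw [h2]
          exact mul_le_mul_of_nonneg_left h3 (by positivity)
      _ ≤ _ := mul_le_mul_of_nonneg_left h1 (pow_pos al_pos n).le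
  have hlog : 0 < Real.log c := Real.log_pos (by rw [hc]; norm_num)
  refine lt_of_lt_of_le hlog (ge_of_tendsto (kk_spec (-20)) ?_)
  filter_upwards [eventually_gt_atTop 0] with n hn
  have hn' : (0:ℝ) < n := by exact_mod_cast hn
  have h1 := Real.log_le_log (by rw [hc]; positivity) (h n)
  rw [Real.log_pow] at h1
  rw [one_div, inv_mul_eq_div, le_div_iff₀ hn', mul_comm]
  exact h1

theorem rpow_two_three (x t : ℝ) (hx : 0 < x) (h1 : -3 ≤ t) (h2 : t ≤ -2) :
    x ^ t ≤ (x ^ 2)⁻¹ + (x ^ 3)⁻¹ := by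
  have e2 : (x ^ 2)⁻¹ = x ^ (-2 : ℝ) := by rw [Real.rpow_neg hx.le]; norm_cast
  have e3 : (x ^ 3)⁻¹ = x ^ (-3 : ℝ) := by rw [Real.rpow_neg hx.le]; norm_cast
  rw [e2, e3]
  have p2 : 0 < x ^ (-2 : ℝ) := Real.rpow_pos_of_pos hx _
  have p3 : 0 < x ^ (-3 : ℝ) := Real.rpow_pos_of_pos hx _
  rcases le_or_gt 1 x with hx1 | hx1
  · have := Real.rpow_le_rpow_of_exponent_le hx1 h2
    linarith
  · have := Real.rpow_le_rpow_of_exponent_ge hx hx1.le h1
    linarith

/-- the key inequality -/
theorem a_sq_le (t t' : ℝ) (h1 : -3 ≤ t) (h2 : t ≤ -2) (n : ℕ) :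
    a n t ^ 2 ≤ (8 * (63/31)) ^ 2 * a (n + n) t' := by
  classical
  have hsum : ∑ γ ∈ reach s n, F t γ ≤ 8 * (63/31) := by
    calc ∑ γ ∈ reach s n, F t γ
        ≤ ∑ γ ∈ reach s n, (ad γ * (nrm γ ^ 2)⁻¹ + ad γ * (nrm γ ^ 3)⁻¹) := by
          refine sum_le_sum fun γ _ => ?_
          unfold F
          rw [← mul_add]
          exact mul_le_mul_of_nonneg_left (rpow_two_three _ t (nrm_pos γ) h1 h2) (ad_pos γ).le
      _ ≤ 4 * (63/31) + 4 * (63/31) := by
          rw [sum_add_distrib]
          exact add_le_add (sum_reach_le 2 wb_two n) (sum_reach_le 3 wb_three n)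
      _ = _ := by ring
  have hsq := J_sq_le s e he n (F t) (fun x => (F_pos t x).le) hsum
  have hcnt : cnt s (n + n) 1 ≤ J s (n + n) (F t') := by
    unfold cnt
    refine J_mono s _ fun x => ?_
    by_cases hx : x = 1
    · subst hx; simp [F, ad_one, nrm_one]
    · simp only [hx, if_false]; exact (F_pos t' x).le
  unfold a
  rw [mul_pow, ← pow_mul, mul_two, ← mul_assoc, mul_comm _ (al ^ (n + n)), mul_assoc]
  refine mul_le_mul_of_nonneg_left ?_ (pow_pos al_pos _).le
  refine hsq.trans ?_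
  exact mul_le_mul_of_nonneg_left hcnt (by positivity)

theorem kk_min (t t' : ℝ) (h1 : -3 ≤ t) (h2 : t ≤ -2) : kk t ≤ kk t' := by
  have l1 := (kk_spec t).const_mul 2
  have l0 : Tendsto (fun n : ℕ => n + n) atTop atTop :=
    tendsto_atTop_mono (fun n => Nat.le_add_left n n) tendsto_id
  have l2 := ((kk_spec t').comp l0).const_mul 2
  have l3 : Tendsto (fun n : ℕ => Real.log ((8 * (63/31)) ^ 2) * (1 / (n:ℝ))) atTop (𝓝 0) := by
    have := tendsto_one_div_atTop_nhds_zero_nat (𝕜 := ℝ)
    have h := this.const_mul (Real.log ((8 * (63/31)) ^ 2))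
    rwa [mul_zero] at h
  have l4 := l3.add l2
  rw [zero_add] at l4
  have : 2 * kk t ≤ 2 * kk t' := by
    refine le_of_tendsto_of_tendsto l1 l4 ?_
    filter_upwards [eventually_gt_atTop 0] with n hn
    have hn' : (0:ℝ) < n := by exact_mod_cast hn
    have h3 := Real.log_le_log (pow_pos (a_pos n t) 2) (a_sq_le t t' h1 h2 n)
    rw [Real.log_pow, Real.log_mul (by positivity) (a_pos _ _).ne'] at h3
    simp only [Function.comp_apply]
    push_cast at h3 ⊢
    have h4 : 2 * (1 / (n:ℝ) * Real.log (a n t)) = (1 / (n:ℝ)) * (2 * Real.log (a n t)) := by ring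
    have h5 : Real.log ((8 * (63/31)) ^ 2) * (1 / (n:ℝ)) +
        2 * (1 / ((n:ℝ) + n) * Real.log (a (n + n) t'))
        = (1 / (n:ℝ)) * (Real.log ((8 * (63/31)) ^ 2) + Real.log (a (n + n) t')) := by
      field_simp
      ring
    rw [h4, h5]
    exact mul_le_mul_of_nonneg_left h3 (by positivity)
  linarith

end V11328.MX
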