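import Pool.Agent.V11328.MX.Cover

/-!
The sum of the weights over all group elements is finite.
-/

namespace V11328.MX

open Finset

theorem hasSum_wb : HasSum wb (32/63) := by
  have g : HasSum (fun n : ℕ => (1/64 : ℝ) ^ n) (64/63) := by
    have := hasSum_geometric_of_lt_one (r := (1/64 : ℝ)) (by norm_num) (by norm_num)
    convert this using 1; norm_num
  have w2 : ∀ n : ℕ, wb (-(n + 1 : ℤ)) = 16 * (1/64 : ℝ) * (1/64 : ℝ) ^ n := by
    intro n
    unfold wb
    rw [if_neg (by omega), show (-(n + 1 : ℤ)).natAbs = n + 1 by omega, pow_succ]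
    ring
  have w1 : ∀ n : ℕ, wb (((n + 1 : ℕ)) : ℤ) = 16 * (1/64 : ℝ) * (1/64 : ℝ) ^ n := by
    intro n
    unfold wb
    rw [if_neg (by omega), show (((n + 1 : ℕ)) : ℤ).natAbs = n + 1 by omega, pow_succ]
    ring
  have g' := g.mul_left (16 * (1/64 : ℝ))
  rw [show (16 * (1/64 : ℝ)) * (64/63) = 16/63 by norm_num] at g'
  have h2 : HasSum (fun n : ℕ => wb (-(n + 1 : ℤ))) (16/63) := by
    simp only [w2]; exact g'
  have h1 : HasSum (fun n : ℕ => wb (n : ℤ)) (16/63) := by
    have e0 : wb 0 = 0 := by simp [wb]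
    have h3 : HasSum (fun n : ℕ => wb ((n + 1 : ℕ) : ℤ)) (16/63) := by
      simp only [w1]; exact g'
    have h4 := (hasSum_nat_add_iff (f := fun n : ℕ => wb (n : ℤ)) 1).1 h3
    simpa [e0] using h4
  have := HasSum.of_nat_of_neg_add_one h1 h2
  convert this using 1; norm_num

theorem sum_wb_le (T : Finset ℤ) : ∑ n ∈ T, wb n ≤ 32/63 :=
  sum_le_hasSum T (fun n _ => wb_nonneg n) hasSum_wb

theorem sum_wt_le (K : ℕ) : ∀ 𝓛 : Finset (List ℤ), (∀ l ∈ 𝓛, l.length ≤ K) →
    ∑ l ∈ 𝓛, wt l ≤ 63/31 := by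
  induction K with
  | zero =>
    intro 𝓛 h
    have h1 : 𝓛 ⊆ {[]} := by
      intro l hl
      have := h l hl
      simp only [Nat.le_zero, List.length_eq_zero_iff] at this
      simp [this]
    calc ∑ l ∈ 𝓛, wt l ≤ ∑ l ∈ ({[]} : Finset (List ℤ)), wt l :=
          sum_le_sum_of_subset_of_nonneg h1 fun l _ _ => wt_nonneg l
      _ = 1 := by simp [wt]
      _ ≤ _ := by norm_num
  | succ K ih =>
    intro 𝓛 h
    classical
    set H : Finset ℤ := 𝓛.image (fun l => l.headD 0) with hH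
    set T : Finset (List ℤ) := 𝓛.image List.tail with hT
    have hT1 : ∀ l ∈ T, l.length ≤ K := by
      intro l hl
      obtain ⟨l', hl', rfl⟩ := mem_image.1 hl
      have := h l' hl'
      rw [List.length_tail]; omega
    have h1 : 𝓛 ⊆ insert [] ((H ×ˢ T).image fun p => p.1 :: p.2) := by
      intro l hl
      cases l with
      | nil => simp
      | cons n l =>
        refine mem_insert_of_mem (mem_image.2 ⟨(n, l), ?_, rfl⟩)
        rw [mem_product]
        exact ⟨mem_image.2 ⟨n :: l, hl, rfl⟩, mem_image.2 ⟨n :: l, hl, rfl⟩⟩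
    calc ∑ l ∈ 𝓛, wt l ≤ ∑ l ∈ insert [] ((H ×ˢ T).image fun p => p.1 :: p.2), wt l :=
          sum_le_sum_of_subset_of_nonneg h1 fun l _ _ => wt_nonneg l
      _ = wt [] + ∑ l ∈ (H ×ˢ T).image fun p => p.1 :: p.2, wt l := by
          rw [sum_insert]
          intro hm
          obtain ⟨p, _, hp⟩ := mem_image.1 hm
          exact List.cons_ne_nil _ _ hp
      _ = 1 + ∑ p ∈ H ×ˢ T, wt (p.1 :: p.2) := by
          have w0 : wt [] = 1 := by simp [wt]
          rw [w0, sum_image]
          intro p _ q _ hpq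
          have := List.cons_eq_cons.1 hpq
          exact Prod.ext this.1 this.2
      _ = 1 + (∑ n ∈ H, wb n) * ∑ l ∈ T, wt l := by
          rw [sum_product, sum_mul]
          congr 1
          refine sum_congr rfl fun n _ => ?_
          rw [mul_sum]
          refine sum_congr rfl fun l _ => ?_
          simp [wt]
      _ ≤ 1 + (32/63) * (63/31) := by
          have := mul_le_mul (sum_wb_le H) (ih T hT1) (sum_nonneg fun l _ => wt_nonneg l)
            (by norm_num)
          linarith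
      _ ≤ 63/31 := by norm_num

theorem sum_wt_le' (𝓛 : Finset (List ℤ)) : ∑ l ∈ 𝓛, wt l ≤ 63/31 :=
  sum_wt_le (𝓛.sup List.length) 𝓛 fun _ hl => le_sup (f := List.length) hl

open Classical in
theorem sum_reach_le (q : ℕ)
    (hq : ∀ n : ℤ, n ≠ 0 → (1/512 : ℝ) ^ n * (gr n ^ q)⁻¹ ≤ wb n) (n : ℕ) :
    ∑ γ ∈ reach s n, ad γ * (nrm γ ^ q)⁻¹ ≤ 4 * (63/31) := by
  have hrep := rep_reach n
  choose! b c l hl hγ using hrep
  set 𝓛 : Finset (List ℤ) := (reach s n).image l with h𝓛
  calc ∑ γ ∈ reach s n, ad γ * (nrm γ ^ q)⁻¹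
      ≤ ∑ γ ∈ reach s n, wt (l γ) := by
        refine sum_le_sum fun γ h => ?_
        have h1 := F_le q hq (b γ) (c γ) (l γ) (hl γ h)
        rwa [← hγ γ h] at h1
    _ = ∑ p ∈ (reach s n).image (fun γ => ((b γ, c γ), l γ)), wt p.2 := by
        rw [sum_image]
        intro x hx y hy hxy
        simp only [Prod.mk.injEq] at hxy
        rw [hγ x hx, hγ y hy, hxy.1.1, hxy.1.2, hxy.2]
    _ ≤ ∑ p ∈ (univ : Finset (Bool × Bool)) ×ˢ 𝓛, wt p.2 := by
        refine sum_le_sum_of_subset_of_nonneg ?_ fun p _ _ => wt_nonneg _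
        intro p hp
        obtain ⟨γ, hγ', rfl⟩ := mem_image.1 hp
        rw [mem_product]
        exact ⟨mem_univ _, mem_image_of_mem _ hγ'⟩
    _ = 4 * ∑ l ∈ 𝓛, wt l := by
        rw [sum_product]
        simp only [sum_const, card_univ]
        norm_num
    _ ≤ 4 * (63/31) := by
        have := sum_wt_le' 𝓛
        linarith

end V11328.MX
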